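import Pool.Agent.Helper14.BSC.Stmts2

set_option autoImplicit false

/-! # FIN : `[k : k₁]` rational norm classes force the finite values into a finite algebraic set -/

namespace Pool.Agent.Helper14.BSC

open Polynomial

section places

variable {k Ω : Type} [Field k] [Field Ω] [Algebra k Ω] {D : Sec k Ω} {p : ℕ} [Fact p.Prime]
  {σ : k →+* ℂ_[p]} {P : Place D p σ}

/-- the place `P` is finite at `x` with value `z` -/
def fin_Val (P : Place D p σ) (x : LL D) (z : ℂ_[p]) : Prop := ∃ h : x ∈ P.C, P.φ ⟨x, h⟩ = z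

theorem fin_uniq {x : LL D} {z z' : ℂ_[p]} (h : fin_Val P x z) (h' : fin_Val P x z') : z = z' := by
  obtain ⟨h1, rfl⟩ := h
  obtain ⟨h2, rfl⟩ := h'
  rfl

theorem fin_add {x y : LL D} {a b : ℂ_[p]} (h : fin_Val P x a) (h' : fin_Val P y b) :
    fin_Val P (x + y) (a + b) := by
  obtain ⟨h1, rfl⟩ := h
  obtain ⟨h2, rfl⟩ := h'
  exact ⟨add_mem h1 h2, by rw [← map_add]; rfl⟩

theorem fin_mul {x y : LL D} {a b : ℂ_[p]} (h : fin_Val P x a) (h' : fin_Val P y b) :
    fin_Val P (x * y) (a * b) := by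
  obtain ⟨h1, rfl⟩ := h
  obtain ⟨h2, rfl⟩ := h'
  exact ⟨mul_mem h1 h2, by rw [← map_mul]; rfl⟩

theorem fin_sub {x y : LL D} {a b : ℂ_[p]} (h : fin_Val P x a) (h' : fin_Val P y b) :
    fin_Val P (x - y) (a - b) := by
  obtain ⟨h1, rfl⟩ := h
  obtain ⟨h2, rfl⟩ := h'
  exact ⟨sub_mem h1 h2, by rw [← map_sub]; rfl⟩

theorem fin_const (P : Place D p σ) (c : k) : fin_Val P (algebraMap k (LL D) c) (σ c) := P.base c

theorem fin_inv {x : LL D} {z : ℂ_[p]} (h : fin_Val P x z) (hz : z ≠ 0) : fin_Val P x⁻¹ z⁻¹ := by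
  obtain ⟨h1, rfl⟩ := h
  have h2 := (P.ker ⟨x, h1⟩).not.1 hz
  rw [not_or, not_not] at h2
  obtain ⟨h3, h4⟩ := h2
  refine ⟨h4, ?_⟩
  have h5 : P.φ ⟨x, h1⟩ * P.φ ⟨x⁻¹, h4⟩ = 1 := by
    rw [← map_mul, ← map_one P.φ]
    congr 1
    exact Subtype.ext (mul_inv_cancel₀ h3)
  exact eq_inv_of_mul_eq_one_right h5

theorem fin_inf {x : LL D} (h : x ∉ P.C) : fin_Val P x⁻¹ 0 := by
  have h1 : x⁻¹ ∈ P.C := (P.C.mem_or_inv_mem x).resolve_left h
  refine ⟨h1, ?_⟩
  rw [P.ker]
  right
  rw [inv_inv]
  exact h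

theorem fin_div {x y : LL D} {a b : ℂ_[p]} (h : fin_Val P x a) (h' : fin_Val P y b) (hb : b ≠ 0) :
    fin_Val P (x / y) (a / b) := by
  rw [div_eq_mul_inv, div_eq_mul_inv]
  exact fin_mul h (fin_inv h' hb)

theorem fin_norm_div {k₁ : Type} [Field k₁] [Algebra k₁ k] [FiniteDimensional k₁ k] (c c' : k) (h : c' ≠ 0) :
    Algebra.norm k₁ (c / c') = Algebra.norm k₁ c / Algebra.norm k₁ c' := by
  have h1 : Algebra.norm k₁ c' * Algebra.norm k₁ c'⁻¹ = 1 := by
    rw [← map_mul, mul_inv_cancel₀ h, map_one]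
  rw [div_eq_mul_inv, map_mul, eq_inv_of_mul_eq_one_right h1, div_eq_mul_inv]

theorem fin_NRr_div {k₁ : Type} [Field k₁] [Algebra k₁ k] [FiniteDimensional k₁ k] {x y : LL D} {r s : k₁}
    (hx : NRr D k₁ x r) (hy : NRr D k₁ y s) : NRr D k₁ (x / y) (r / s) := by
  intro n hn
  obtain ⟨c, hc, g, h1, t, h2⟩ := hx n hn
  obtain ⟨c', hc', g', h1', t', h2'⟩ := hy n hn
  refine ⟨c / c', div_ne_zero hc hc', g / g', ?_, t / t', ?_⟩
  · rw [h1, h1', map_div₀, div_pow, mul_div_mul_comm]
  · rw [fin_norm_div c c' hc', h2, h2', div_pow, mul_div_mul_comm]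

theorem fin_N1 (hN : ST_N1) [CharZero k] [IsAlgClosed Ω]
    {k₁ : Type} [Field k₁] [Algebra k₁ k] [FiniteDimensional k₁ k]
    (T : TS k k₁ p) (Q : ∀ i, Place D p (T.σ i)) {x : LL D} {r : k₁}
    (hr : r ≠ 0) (hx : NRr D k₁ x r) {z : Fin T.n → ℂ_[p]} (hz : ∀ i, fin_Val (Q i) x (z i))
    (hz0 : ∀ i, z i ≠ 0) : ∏ i, z i = T.j r := by
  have h1 : ∀ i, x ∈ (Q i).C := fun i => (hz i).1
  have h2 : ∀ i, (Q i).φ ⟨x, h1 i⟩ = z i := fun i => (hz i).2
  have h3 := hN k Ω D k₁ p T Q x r hr hx h1 (fun i => by rw [h2 i]; exact hz0 i)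
  rw [← h3]
  exact Finset.prod_congr rfl fun i _ => (h2 i).symm

end places

section poly

variable {K : Type} [Field K]

theorem fin_natDegree_lin (v u : K) : (C v * X - C u : K[X]).natDegree ≤ 1 := by
  refine (natDegree_sub_le _ _).trans ?_
  rw [natDegree_C]
  refine max_le ?_ (by simp)
  exact (natDegree_C_mul_le v X).trans natDegree_X_le

end poly

open Classical in
/-- the core: values at the places over one embedding of `k₁` -/
theorem fin_core (hN : ST_N1) {k Ω : Type} [Field k] [Field Ω] [Algebra k Ω] [CharZero k] [IsAlgClosed Ω]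
    (D : Sec k Ω) {k₁ : Type} [Field k₁] [Algebra k₁ k] [FiniteDimensional k₁ k] (f : LL D)
    (A : Finset k₁) (hA : A.card = Module.finrank k₁ k) (r : k₁ → k₁) (hr0 : ∀ c ∈ A, r c ≠ 0)
    (hr : ∀ c ∈ A, NRr D k₁ (f - algebraMap k (LL D) (algebraMap k₁ k c)) (r c))
    (p : ℕ) [Fact p.Prime] (T : TS k k₁ p) (Q : ∀ i, Place D p (T.σ i)) (i0 : Fin T.n)
    (y : ℂ_[p]) (hy : fin_Val (Q i0) f y)
    (PB : Finset k₁ → k₁[X]) (hPBd : ∀ B, (PB B).degree < A.card)
    (hPB : ∀ B, ∀ c ∈ A, (PB B).eval c = if c ∈ B then 0 else (-1) ^ A.card * r c) :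
    ∃ B ∈ A.powerset, ((PB B + Lagrange.nodal A id).map T.j).eval y = 0 ∨
      (PB B ≠ 0 ∧ ((PB B).map T.j).eval y = 0) := by
  have hTn : A.card = T.n := by rw [T.deg, hA]
  -- values
  have hval : ∀ i, ∃ w : ℂ_[p] × ℂ_[p], (w.2 = 1 ∧ fin_Val (Q i) f w.1) ∨
      (w.2 = 0 ∧ w.1 = 1 ∧ f ∉ (Q i).C) := by
    intro i
    by_cases h : f ∈ (Q i).C
    · exact ⟨((Q i).φ ⟨f, h⟩, 1), Or.inl ⟨rfl, h, rfl⟩⟩
    · exact ⟨(1, 0), Or.inr ⟨rfl, rfl, h⟩⟩
  choose w hw using hval
  set u : Fin T.n → ℂ_[p] := fun i => (w i).1 with hu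
  set v : Fin T.n → ℂ_[p] := fun i => (w i).2 with hv
  have huv : ∀ i, (v i = 1 ∧ fin_Val (Q i) f (u i)) ∨ (v i = 0 ∧ u i = 1 ∧ f ∉ (Q i).C) := hw
  set S : ℂ_[p][X] := ∏ i, (C (v i) * X - C (u i)) with hS
  have hSeval : ∀ z, S.eval z = ∏ i, (v i * z - u i) := by
    intro z
    rw [hS, eval_prod]
    refine Finset.prod_congr rfl fun i _ => ?_
    simp
  have hS0 : S ≠ 0 := by
    rw [hS, Finset.prod_ne_zero_iff]
    intro i _ h0
    rcases huv i with ⟨h1, _⟩ | ⟨h1, h2, _⟩
    · have := congrArg (fun q : ℂ_[p][X] => q.coeff 1) h0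
      simp [h1] at this
    · have := congrArg (fun q : ℂ_[p][X] => q.coeff 0) h0
      simp [h2] at this
  have hSy : S.eval y = 0 := by
    rw [hSeval]
    refine Finset.prod_eq_zero (Finset.mem_univ i0) ?_
    rcases huv i0 with ⟨h1, h2⟩ | ⟨_, _, h3⟩
    · rw [h1, one_mul, fin_uniq h2 hy, sub_self]
    · exact absurd hy.1 h3
  have hconst : ∀ i (c : k₁), fin_Val (Q i) (algebraMap k (LL D) (algebraMap k₁ k c)) (T.j c) := by
    intro i c
    have := fin_const (Q i) (algebraMap k₁ k c)
    rwa [T.res] at this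
  have hsubv : ∀ i (c : k₁) (z : ℂ_[p]), fin_Val (Q i) f z →
      fin_Val (Q i) (f - algebraMap k (LL D) (algebraMap k₁ k c)) (z - T.j c) := fun i c z h =>
    fin_sub h (hconst i c)
  -- the set `B`
  set B : Finset k₁ := A.filter (fun c => S.eval (T.j c) = 0) with hB
  refine ⟨B, Finset.mem_powerset.2 (Finset.filter_subset _ _), ?_⟩
  -- ratios
  have hratio : ∀ c ∈ A, ∀ c0 ∈ A, S.eval (T.j c) ≠ 0 → S.eval (T.j c0) ≠ 0 →
      S.eval (T.j c) / S.eval (T.j c0) = T.j (r c / r c0) := by
    intro c hc c0 hc0 h1 h2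
    have hne : ∀ c, S.eval (T.j c) ≠ 0 → ∀ i, v i * T.j c - u i ≠ 0 := by
      intro c h i h3
      apply h
      rw [hSeval]
      exact Finset.prod_eq_zero (Finset.mem_univ i) h3
    have h3 := fin_N1 hN T Q (div_ne_zero (hr0 c hc) (hr0 c0 hc0)) (fin_NRr_div (hr c hc) (hr c0 hc0))
      (z := fun i => (v i * T.j c - u i) / (v i * T.j c0 - u i)) (by
        intro i
        have hn0 := hne c0 h2 i
        rcases huv i with ⟨h4, h5⟩ | ⟨h4, h5, h6⟩
        · have h7 := hsubv i c _ h5
          have h8 := hsubv i c0 _ h5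
          rw [h4, one_mul] at hn0
          have h9 : u i - T.j c0 ≠ 0 := fun h => hn0 (by rw [← neg_sub, h, neg_zero])
          have h10 := fin_div h7 h8 h9
          have e : (v i * T.j c - u i) / (v i * T.j c0 - u i) = (u i - T.j c) / (u i - T.j c0) := by
            rw [h4, one_mul, one_mul, ← neg_sub (u i), ← neg_sub (u i) (T.j c0), neg_div_neg_eq]
          rw [e]
          exact h10
        · have hnot : f - algebraMap k (LL D) (algebraMap k₁ k c0) ∉ (Q i).C := by
            intro h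
            apply h6
            have := add_mem h (hconst i c0).1
            rwa [sub_add_cancel] at this
          have hne0 : f - algebraMap k (LL D) (algebraMap k₁ k c0) ≠ 0 := by
            intro h
            apply hnot
            rw [h]
            exact zero_mem _
          have e : (f - algebraMap k (LL D) (algebraMap k₁ k c)) / (f - algebraMap k (LL D) (algebraMap k₁ k c0))
              = algebraMap k (LL D) 1 + (algebraMap k (LL D) (algebraMap k₁ k c0)
                - algebraMap k (LL D) (algebraMap k₁ k c)) * (f - algebraMap k (LL D) (algebraMap k₁ k c0))⁻¹ := by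
            rw [map_one]
            field_simp
            ring
          have h7 := fin_add (fin_const (Q i) 1) (fin_mul (fin_sub (hconst i c0) (hconst i c)) (fin_inf hnot))
          rw [← e] at h7
          have e2 : (v i * T.j c - u i) / (v i * T.j c0 - u i) = T.σ i 1 + (T.j c0 - T.j c) * 0 := by
            rw [h4, h5, map_one]
            simp
          rw [e2]
          exact h7) (by
        intro i
        exact div_ne_zero (hne c h1 i) (hne c0 h2 i))
    rw [← h3, hSeval, hSeval, Finset.prod_div_distrib]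
  have hinj : Function.Injective T.j := T.j.injective
  set A' : Finset ℂ_[p] := A.image T.j with hA'
  have hcard : A'.card = A.card := Finset.card_image_of_injective _ hinj
  have hPBe : ∀ c ∈ A, ((PB B).map T.j).eval (T.j c) = if c ∈ B then 0 else (-1) ^ A.card * T.j (r c) := by
    intro c hc
    rw [eval_map_apply, hPB B c hc]
    split_ifs <;> simp
  by_cases hall : ∀ i, v i = 1
  · left
    have hSm : S = ∏ i, (X - C (u i)) := by
      rw [hS]
      refine Finset.prod_congr rfl fun i _ => ?_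
      rw [hall i, C_1, one_mul]
    have hSmon : S.Monic := by
      rw [hSm]
      exact monic_prod_of_monic _ _ fun i _ => monic_X_sub_C (u i)
    have hSdeg : S.degree = A.card := by
      rw [degree_eq_natDegree hS0, hSm, natDegree_prod_of_monic _ _ (fun i _ => monic_X_sub_C (u i))]
      simp [hTn]
    have hQmon : (PB B + Lagrange.nodal A id).Monic := by
      refine Monic.add_of_right Lagrange.nodal_monic ?_
      rw [Lagrange.degree_nodal]
      exact hPBd B
    have hQdeg : (PB B + Lagrange.nodal A id).degree = A.card := by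
      rw [degree_add_eq_right_of_degree_lt, Lagrange.degree_nodal]
      rw [Lagrange.degree_nodal]
      exact hPBd B
    have hQ'mon := hQmon.map T.j
    have hQ'deg : ((PB B + Lagrange.nodal A id).map T.j).degree = A.card := by
      rw [degree_map, hQdeg]
    have hv1 : ∀ i, fin_Val (Q i) f (u i) := by
      intro i
      rcases huv i with ⟨_, h⟩ | ⟨h, _, _⟩
      · exact h
      · rw [hall i] at h; exact absurd h one_ne_zero
    have hEq : S = (PB B + Lagrange.nodal A id).map T.j := by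
      refine Polynomial.eq_of_degree_sub_lt_of_eval_finset_eq A' ?_ ?_
      · rw [hcard, ← hSdeg]
        exact degree_sub_lt_left (by rw [hSdeg, hQ'deg]) hS0 (by rw [hSmon.leadingCoeff, hQ'mon.leadingCoeff])
      · intro z hz
        obtain ⟨c, hc, rfl⟩ := Finset.mem_image.1 hz
        rw [Polynomial.map_add, eval_add, hPBe c hc, eval_map_apply]
        have h0 : (Lagrange.nodal A id).eval c = 0 := Lagrange.eval_nodal_at_node (v := id) hc
        rw [h0, map_zero, add_zero]
        by_cases hcB : c ∈ B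
        · rw [if_pos hcB]
          exact (Finset.mem_filter.1 hcB).2
        · rw [if_neg hcB]
          have hne : S.eval (T.j c) ≠ 0 := fun h => hcB (Finset.mem_filter.2 ⟨hc, h⟩)
          have h1 := fin_N1 hN T Q (hr0 c hc) (hr c hc) (z := fun i => u i - T.j c)
            (fun i => hsubv i c _ (hv1 i)) (by
              intro i h
              apply hne
              rw [hSeval]
              refine Finset.prod_eq_zero (Finset.mem_univ i) ?_
              rw [hall i, one_mul, ← neg_sub, h, neg_zero])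
          rw [← h1, hSeval, hTn]
          have : ∀ i, v i * T.j c - u i = (-1) * (u i - T.j c) := by
            intro i
            rw [hall i]; ring
          simp only [this]
          rw [Finset.prod_mul_distrib, Finset.prod_const, Finset.card_univ, Fintype.card_fin]
    rw [← hEq]
    exact hSy
  · right
    push Not at hall
    obtain ⟨i1, hi1⟩ := hall
    have hv0 : v i1 = 0 := by
      rcases huv i1 with ⟨h, _⟩ | ⟨h, _, _⟩
      · exact absurd h hi1
      · exact h
    have hSdeg : S.degree < A.card := by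
      rw [degree_eq_natDegree hS0, Nat.cast_lt, hS, ← Finset.mul_prod_erase _ _ (Finset.mem_univ i1)]
      have h1 : (C (v i1) * X - C (u i1) : ℂ_[p][X]).natDegree = 0 := by
        rw [hv0, C_0, zero_mul, zero_sub, ← C_neg, natDegree_C]
      have h2 : (∏ i ∈ Finset.univ.erase i1, (C (v i) * X - C (u i) : ℂ_[p][X])).natDegree ≤ T.n - 1 := by
        refine (natDegree_prod_le _ _).trans ?_
        refine (Finset.sum_le_sum fun i _ => fin_natDegree_lin (v i) (u i)).trans ?_
        rw [Finset.sum_const, Finset.card_erase_of_mem (Finset.mem_univ i1), Finset.card_univ, Fintype.card_fin]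
        simp
      have h3 := (natDegree_mul_le (p := (C (v i1) * X - C (u i1) : ℂ_[p][X]))
        (q := ∏ i ∈ Finset.univ.erase i1, (C (v i) * X - C (u i) : ℂ_[p][X])))
      have h4 := T.pos
      omega
    have hex : ∃ c0 ∈ A, S.eval (T.j c0) ≠ 0 := by
      by_contra hno
      push Not at hno
      apply hS0
      refine Polynomial.eq_of_degrees_lt_of_eval_finset_eq A' ?_ ?_ ?_
      · rw [hcard]; exact hSdeg
      · rw [degree_zero]; exact WithBot.bot_lt_coe _
      · intro z hz
        obtain ⟨c, hc, rfl⟩ := Finset.mem_image.1 hz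
        rw [hno c hc, eval_zero]
    obtain ⟨c0, hc0, hSc0⟩ := hex
    have hjr0 : T.j (r c0) ≠ 0 := (map_ne_zero T.j).2 (hr0 c0 hc0)
    set lam : ℂ_[p] := S.eval (T.j c0) / ((-1) ^ A.card * T.j (r c0)) with hlam
    have hneg : ((-1 : ℂ_[p]) ^ A.card) ≠ 0 := pow_ne_zero _ (neg_ne_zero.2 one_ne_zero)
    have hEq : S = C lam * (PB B).map T.j := by
      refine Polynomial.eq_of_degrees_lt_of_eval_finset_eq A' ?_ ?_ ?_
      · rw [hcard]; exact hSdeg
      · rw [hcard]
        refine lt_of_le_of_lt (degree_mul_le _ _) ?_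
        refine lt_of_le_of_lt (add_le_add_left degree_C_le _) ?_
        rw [zero_add, degree_map]
        exact hPBd B
      · intro z hz
        obtain ⟨c, hc, rfl⟩ := Finset.mem_image.1 hz
        rw [eval_mul, eval_C, hPBe c hc]
        by_cases hcB : c ∈ B
        · rw [if_pos hcB, mul_zero]
          exact (Finset.mem_filter.1 hcB).2
        · rw [if_neg hcB]
          have hne : S.eval (T.j c) ≠ 0 := fun h => hcB (Finset.mem_filter.2 ⟨hc, h⟩)
          have h1 := hratio c hc c0 hc0 hne hSc0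
          rw [map_div₀, div_eq_div_iff hSc0 hjr0] at h1
          rw [hlam]
          field_simp
          linear_combination h1
    constructor
    · intro h
      apply hS0
      rw [hEq, h, Polynomial.map_zero, mul_zero]
    · have h1 := hSy
      rw [hEq, eval_mul, eval_C] at h1
      rcases mul_eq_zero.1 h1 with h2 | h2
      · exfalso
        apply hS0
        rw [hEq, h2, C_0, zero_mul]
      · exact h2

open Classical in
theorem st_FIN (hN : ST_N1) (hT : ST_TSX) (hR : ST_RK) : ST_FIN := by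
  intro k Ω _ _ _ _ _ D k₁ _ _ _ f hf A hA hNR
  have hch : ∀ c : k₁, ∃ r : k₁, c ∈ A → (r ≠ 0 ∧ NRr D k₁ (f - algebraMap k (LL D) (algebraMap k₁ k c)) r) := by
    intro c
    by_cases hc : c ∈ A
    · obtain ⟨r, h1, h2⟩ := hNR c hc
      exact ⟨r, fun _ => ⟨h1, h2⟩⟩
    · exact ⟨0, fun h => absurd h hc⟩
  choose r hr using hch
  set PB : Finset k₁ → k₁[X] := fun B =>
    Lagrange.interpolate A id (fun c => if c ∈ B then 0 else (-1) ^ A.card * r c) with hPBdef
  have hPBd : ∀ B, (PB B).degree < A.card := fun B => Lagrange.degree_interpolate_lt _ (Set.injOn_id _)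
  have hPB : ∀ B, ∀ c ∈ A, (PB B).eval c = if c ∈ B then 0 else (-1) ^ A.card * r c := by
    intro B c hc
    exact Lagrange.eval_interpolate_at_node (v := id) _ (Set.injOn_id _) hc
  set F₁ : k₁[X] := ∏ B ∈ A.powerset, ((PB B + Lagrange.nodal A id) * (if PB B = 0 then 1 else PB B)) with hF₁
  have hF₁0 : F₁ ≠ 0 := by
    rw [hF₁, Finset.prod_ne_zero_iff]
    intro B _
    refine mul_ne_zero ?_ ?_
    · have : (PB B + Lagrange.nodal A id).Monic := by
        refine Monic.add_of_right Lagrange.nodal_monic ?_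
        rw [Lagrange.degree_nodal]
        exact hPBd B
      exact this.ne_zero
    · split_ifs with h
      · exact one_ne_zero
      · exact h
  refine ⟨F₁.map (algebraMap k₁ k), ?_, ?_⟩
  · rw [Ne, Polynomial.map_eq_zero]; exact hF₁0
  · intro p _ σ hσ P hfC
    obtain ⟨E, hE, hσE⟩ := hσ
    obtain ⟨T, hTj, hTall, hTE⟩ := hT k k₁ p (σ.comp (algebraMap k₁ k)) E hE (fun a => hσE _)
    obtain ⟨i0, hi0⟩ := hTall σ (fun a => rfl)
    have hQ : ∀ i, Nonempty (Place D p (T.σ i)) := by
      intro i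
      obtain ⟨E₁, hE₁, h1, _⟩ := hTE i
      obtain ⟨Q, _⟩ := hR k Ω D p (T.σ i) E₁ hE₁ h1
      exact ⟨Q⟩
    subst hi0
    set Q : ∀ i, Place D p (T.σ i) := Function.update (fun i => (hQ i).some) i0 P with hQdef
    have hQi0 : Q i0 = P := by rw [hQdef, Function.update_self]
    have hy : fin_Val (Q i0) f (P.φ ⟨f, hfC⟩) := by
      rw [hQi0]; exact ⟨hfC, rfl⟩
    obtain ⟨B, hB, hor⟩ := fin_core hN D f A hA r (fun c hc => (hr c hc).1) (fun c hc => (hr c hc).2)
      p T Q i0 _ hy PB hPBd hPB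
    rw [Polynomial.map_map, ← hTj, hF₁, Polynomial.map_prod, eval_prod]
    refine Finset.prod_eq_zero hB ?_
    rw [Polynomial.map_mul, eval_mul]
    rcases hor with h | ⟨h1, h2⟩
    · rw [h, zero_mul]
    · rw [if_neg h1, h2, mul_zero]

end Pool.Agent.Helper14.BSC
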