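import Pool.Agent.Helper14.BSC.Stmts

set_option autoImplicit false

/-! # A0 : normal form of one-units of `NN D S₁` -/

namespace Pool.Agent.Helper14.BSC

section

variable {k Ω : Type} [Field k] [Field Ω] [Algebra k Ω] {p : ℕ} [Fact p.Prime]

theorem a0_nm_mul (Lc : Loc k Ω p) (x y : Acl k Ω) : nm Lc (x * y) = nm Lc x * nm Lc y := by
  simp only [nm, map_mul, norm_mul]

theorem a0_nm_one (Lc : Loc k Ω p) : nm Lc 1 = 1 := by
  simp only [nm, map_one, norm_one]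

theorem a0_nm_zero (Lc : Loc k Ω p) : nm Lc 0 = 0 := by
  simp only [nm, map_zero, norm_zero]

theorem a0_nm_neg (Lc : Loc k Ω p) (x : Acl k Ω) : nm Lc (-x) = nm Lc x := by
  simp only [nm, map_neg, norm_neg]

theorem a0_nm_pow (Lc : Loc k Ω p) (x : Acl k Ω) (n : ℕ) : nm Lc (x ^ n) = nm Lc x ^ n := by
  simp only [nm, map_pow, norm_pow]

theorem a0_nm_inv (Lc : Loc k Ω p) (x : Acl k Ω) : nm Lc x⁻¹ = (nm Lc x)⁻¹ := by
  simp only [nm, map_inv₀, norm_inv]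

theorem a0_nm_div (Lc : Loc k Ω p) (x y : Acl k Ω) : nm Lc (x / y) = nm Lc x / nm Lc y := by
  simp only [nm, map_div₀, norm_div]

theorem a0_nm_zpow (Lc : Loc k Ω p) (x : Acl k Ω) (n : ℤ) : nm Lc (x ^ n) = nm Lc x ^ n := by
  simp only [nm, map_zpow₀, norm_zpow]

theorem a0_nm_nonneg (Lc : Loc k Ω p) (x : Acl k Ω) : 0 ≤ nm Lc x := norm_nonneg _

theorem a0_nm_pos (Lc : Loc k Ω p) {x : Acl k Ω} (hx : x ≠ 0) : 0 < nm Lc x :=
  norm_pos_iff.2 ((map_ne_zero Lc.ι).2 hx)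

theorem a0_nm_add (Lc : Loc k Ω p) (x y : Acl k Ω) : nm Lc (x + y) ≤ max (nm Lc x) (nm Lc y) := by
  simp only [nm, map_add]
  exact PadicComplex.isNonarchimedean p _ _

theorem a0_nm_p (Lc : Loc k Ω p) : nm Lc (p : Acl k Ω) < 1 := by
  simp only [nm, map_natCast]
  have h : ((p : ℕ) : ℂ_[p]) = (((p : ℕ) : ℚ_[p]) : ℂ_[p]) := by
    rw [← PadicComplex.coe_natCast]
    congr 1
  rw [h, PadicComplex.norm_extends', Padic.norm_p]
  have : (1 : ℝ) < p := by exact_mod_cast (Fact.out : p.Prime).one_lt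
  exact inv_lt_one_of_one_lt₀ this

theorem a0_v_le {D : Sec k Ω} {Lc : Loc k Ω p} {B : ValuationSubring (NN D Lc.S₁)} (hO : Over D Lc B)
    (x : FF Lc.S₁) : B.valuation (inc D Lc.S₁ x) ≤ 1 ↔ nm Lc x ≤ 1 := by
  rw [B.valuation_le_one_iff]; exact hO x

theorem a0_v_eq {D : Sec k Ω} {Lc : Loc k Ω p} {B : ValuationSubring (NN D Lc.S₁)} (hO : Over D Lc B)
    {x : FF Lc.S₁} (hx : nm Lc x = 1) : B.valuation (inc D Lc.S₁ x) = 1 := by
  have h0 : x ≠ 0 := by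
    rintro rfl
    rw [ZeroMemClass.coe_zero, a0_nm_zero] at hx
    exact zero_ne_one hx
  refine le_antisymm ((a0_v_le hO x).2 hx.le) ?_
  have h1 : B.valuation (inc D Lc.S₁ x⁻¹) ≤ 1 := by
    rw [a0_v_le hO]
    have : ((x⁻¹ : FF Lc.S₁) : Acl k Ω) = ((x : Acl k Ω))⁻¹ := rfl
    rw [this, a0_nm_inv, hx, inv_one]
  rw [map_inv₀, map_inv₀] at h1
  have h2 : B.valuation (inc D Lc.S₁ x) ≠ 0 := by
    rw [Ne, map_eq_zero, map_eq_zero]; exact h0
  rwa [inv_le_one₀ (zero_lt_iff.2 h2)] at h1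

theorem a0_v_lt {D : Sec k Ω} {Lc : Loc k Ω p} {B : ValuationSubring (NN D Lc.S₁)} (hO : Over D Lc B)
    {x : FF Lc.S₁} (hx : nm Lc x < 1) : B.valuation (inc D Lc.S₁ x) < 1 := by
  by_cases h0 : x = 0
  · subst h0; simp
  by_contra h
  rw [not_lt] at h
  have h2 : B.valuation (inc D Lc.S₁ x) ≠ 0 := by
    rw [Ne, map_eq_zero, map_eq_zero]; exact h0
  have h1 : B.valuation (inc D Lc.S₁ x⁻¹) ≤ 1 := by
    rw [map_inv₀, map_inv₀, inv_le_one₀ (zero_lt_iff.2 h2)]; exact h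
  rw [a0_v_le hO] at h1
  have e : ((x⁻¹ : FF Lc.S₁) : Acl k Ω) = ((x : Acl k Ω))⁻¹ := rfl
  rw [e, a0_nm_inv] at h1
  have h3 : 0 < nm Lc (x : Acl k Ω) := a0_nm_pos Lc (by exact_mod_cast h0)
  have h4 := (one_lt_inv₀ h3).2 hx
  linarith

theorem a0_main (hK : ST_KUM) (hR : ST_RESK) (hA : ST_ADJ) [CharZero k] [IsAlgClosed Ω] (D : Sec k Ω)
    (Lc : Loc k Ω p) (B : ValuationSubring (NN D Lc.S₁)) (hO : Over D Lc B) (hN : NoRoot D Lc B)
    (y : NN D Lc.S₁) (hy : B.valuation y < 1) :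
      ∃ d : FF Lc.S₁, nm Lc d < 1 ∧
        (nm Lc d ≤ nm Lc (Lc.ζ - 1) ^ p ∨ ∃ i : ℕ, ¬ p ∣ i ∧ nm Lc d = nm Lc Lc.π ^ i) ∧
        ∃ h : NN D Lc.S₁, B.valuation h < 1 ∧ 1 + y = (1 + inc D Lc.S₁ d) * (1 + h) ^ p := by
  have hp : p.Prime := Fact.out
  have hv1 : B.valuation (1 + y) = 1 := Valuation.map_one_add_of_lt _ hy
  have hne : (1 + y : NN D Lc.S₁) ≠ 0 := by
    intro h
    rw [h, map_zero] at hv1
    exact zero_ne_one hv1
  obtain ⟨c, hc, g, hg, hcg⟩ := hK k Ω D Lc.S₁ p hp.pos (1 + y) hne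
  have hc' : (c : Acl k Ω) ≠ 0 := by exact_mod_cast hc
  obtain ⟨j, hj⟩ := Lc.disc c c.2 hc'
  have hπ : Lc.π ≠ 0 := by
    intro h
    have := Lc.posπ
    rw [h] at this
    simp at this
  let P : FF Lc.S₁ := ⟨Lc.π, Lc.memπ⟩
  have hP0 : P ≠ 0 := fun h => hπ (congrArg Subtype.val h)
  have hPc : ((P : FF Lc.S₁) : Acl k Ω) = Lc.π := rfl
  let c0 : FF Lc.S₁ := c / P ^ j
  have hc0c : ((c0 : FF Lc.S₁) : Acl k Ω) = (c : Acl k Ω) / Lc.π ^ j := by
    have h1 := map_div₀ (FF Lc.S₁).val c (P ^ j)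
    rw [map_zpow₀] at h1
    exact h1
  have hc0 : nm Lc c0 = 1 := by
    rw [hc0c, a0_nm_div, a0_nm_zpow]
    change ‖Lc.ι c‖ / ‖Lc.ι Lc.π‖ ^ j = 1
    rw [hj]
    exact div_self (zpow_ne_zero _ Lc.posπ.ne')
  have hcc : c = P ^ j * c0 := by
    change c = P ^ j * (c / P ^ j)
    rw [mul_div_cancel₀ _ (zpow_ne_zero _ hP0)]
  have hvc0 : B.valuation (inc D Lc.S₁ c0) = 1 := a0_v_eq hO hc0
  set C : NN D Lc.S₁ := inc D Lc.S₁ c0 with hC
  have hC0 : C ≠ 0 := by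
    intro h
    rw [h, map_zero] at hvc0
    exact zero_ne_one hvc0
  have hpi : inc D Lc.S₁ P = piN D Lc := rfl
  set a : NN D Lc.S₁ := piN D Lc with ha
  have ha0 : a ≠ 0 := by
    rw [← hpi, Ne, map_eq_zero]; exact hP0
  have hcg2 : 1 + y = a ^ j * C * g ^ p := by
    rw [hcg, hcc, map_mul, map_zpow₀, hpi]
  have hpj : (p : ℤ) ∣ j := by
    by_contra hnd
    obtain ⟨u, v, huv⟩ := ((Nat.prime_iff_prime_int.1 hp).coprime_iff_not_dvd).2 hnd
    have haj : a ^ j = (1 + y) / (g ^ p * C) := by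
      rw [hcg2]; field_simp
    refine hN (a ^ u * g ^ (-v)) (((1 + y) / C) ^ v) ?_ ?_ ?_
    · rw [← B.valuation_le_one_iff, map_zpow₀, map_div₀, hv1, hvc0, div_one, one_zpow]
    · rw [← B.valuation_le_one_iff, map_inv₀, map_zpow₀, map_div₀, hv1, hvc0, div_one, one_zpow, inv_one]
    · change a = _
      have e1 : a = (a ^ u) ^ (p : ℤ) * (a ^ j) ^ v := by
        rw [← zpow_mul, ← zpow_mul, ← zpow_add₀ ha0]
        have : u * (p : ℤ) + j * v = 1 := by rw [← huv]; ring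
        rw [this, zpow_one]
      have e2 : (a ^ j) ^ v = ((1 + y) / C) ^ v * (g ^ (-v)) ^ (p : ℤ) := by
        rw [haj, ← zpow_mul, div_zpow, div_zpow, mul_zpow, ← zpow_natCast g p, ← zpow_mul, mul_comm (p : ℤ) v,
          neg_mul, zpow_neg]
        field_simp
      calc a = (a ^ u) ^ (p : ℤ) * (a ^ j) ^ v := e1
        _ = (a ^ u) ^ (p : ℤ) * (((1 + y) / C) ^ v * (g ^ (-v)) ^ (p : ℤ)) := by rw [e2]
        _ = (a ^ u * g ^ (-v)) ^ p * ((1 + y) / C) ^ v := by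
          rw [← zpow_natCast (a ^ u * g ^ (-v)) p, mul_zpow]; ring
  obtain ⟨q, rfl⟩ := hpj
  set g' : NN D Lc.S₁ := a ^ q * g with hg'
  have hy2 : 1 + y = C * g' ^ p := by
    rw [hcg2, hg', mul_pow, ← zpow_natCast (a ^ q) p, ← zpow_mul, mul_comm q (p : ℤ)]; ring
  have hvg' : B.valuation g' = 1 := by
    have h1 := hv1
    rw [hy2, map_mul, hvc0, one_mul, map_pow] at h1
    exact (pow_eq_one_iff.1 h1).resolve_right hp.ne_zero
  -- reduction of `c0`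
  obtain ⟨κ, _, _, _, ρ, hρ1, hsurj, hzero, hhom⟩ := hR k Ω p Lc
  have hfrob : Function.Surjective (frobenius κ p) :=
    Finite.injective_iff_surjective.1 (frobenius κ p).injective
  obtain ⟨β, hβ⟩ := hfrob (ρ c0)
  obtain ⟨b, hb1, hb2⟩ := hsurj β
  have hbpow : ∀ n : ℕ, nm Lc ((b ^ n : FF Lc.S₁) : Acl k Ω) ≤ 1 := by
    intro n
    push_cast
    rw [a0_nm_pow]
    exact pow_le_one₀ (a0_nm_nonneg Lc _) hb1
  have hρpow : ∀ n : ℕ, ρ (b ^ n) = β ^ n := by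
    intro n
    induction n with
    | zero => rw [pow_zero, pow_zero, hρ1]
    | succ n ih => rw [pow_succ, (hhom _ _ (hbpow n) hb1).2, ih, hb2, pow_succ]
  have hsub1 : nm Lc ((c0 - b ^ p : FF Lc.S₁) : Acl k Ω) ≤ 1 := by
    have : ((c0 - b ^ p : FF Lc.S₁) : Acl k Ω) = (c0 : Acl k Ω) + -((b ^ p : FF Lc.S₁) : Acl k Ω) := by
      push_cast; ring
    rw [this]
    refine (a0_nm_add Lc _ _).trans (max_le hc0.le ?_)
    rw [a0_nm_neg]; exact hbpow p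
  have hsub : nm Lc ((c0 - b ^ p : FF Lc.S₁) : Acl k Ω) < 1 := by
    rw [← hzero _ hsub1]
    have h1 := (hhom (c0 - b ^ p) (b ^ p) hsub1 (hbpow p)).1
    rw [sub_add_cancel, hρpow] at h1
    have h2 : ρ c0 = β ^ p := hβ.symm
    rw [h2] at h1
    exact (add_eq_right.1 h1.symm)
  have hbp : nm Lc ((b ^ p : FF Lc.S₁) : Acl k Ω) = 1 := by
    refine le_antisymm (hbpow p) ?_
    by_contra hlt
    rw [not_le] at hlt
    have h1 : ((c0 : FF Lc.S₁) : Acl k Ω) = ((c0 - b ^ p : FF Lc.S₁) : Acl k Ω) + ((b ^ p : FF Lc.S₁) : Acl k Ω) := by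
      push_cast; ring
    have h2 := a0_nm_add Lc ((c0 - b ^ p : FF Lc.S₁) : Acl k Ω) ((b ^ p : FF Lc.S₁) : Acl k Ω)
    rw [← h1, hc0] at h2
    exact absurd h2 (not_le.2 (max_lt hsub hlt))
  have hb : nm Lc b = 1 := by
    have h1 := hbp
    push_cast at h1
    rw [a0_nm_pow] at h1
    exact (pow_eq_one_iff_of_nonneg (a0_nm_nonneg Lc _) hp.ne_zero).1 h1
  have hb0 : b ≠ 0 := by
    rintro rfl
    rw [ZeroMemClass.coe_zero, a0_nm_zero] at hb
    exact zero_ne_one hb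
  let d0 : FF Lc.S₁ := (c0 - b ^ p) / b ^ p
  have hd0 : nm Lc d0 < 1 := by
    have : ((d0 : FF Lc.S₁) : Acl k Ω) = ((c0 - b ^ p : FF Lc.S₁) : Acl k Ω) / ((b ^ p : FF Lc.S₁) : Acl k Ω) := by
      change (((c0 - b ^ p) / b ^ p : FF Lc.S₁) : Acl k Ω) = _
      push_cast; rfl
    rw [this, a0_nm_div, hbp, div_one]
    exact hsub
  have hc0d : c0 = b ^ p * (1 + d0) := by
    change c0 = b ^ p * (1 + (c0 - b ^ p) / b ^ p)
    have : b ^ p ≠ 0 := pow_ne_zero _ hb0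
    field_simp
    ring
  obtain ⟨d, g1, hd, hg1, hE, hcase⟩ := hA k Ω p Lc d0 hd0
  set G : NN D Lc.S₁ := inc D Lc.S₁ b * g' * (1 + inc D Lc.S₁ g1) with hG
  have hfin : 1 + y = (1 + inc D Lc.S₁ d) * G ^ p := by
    have h1 : C = inc D Lc.S₁ b ^ p * ((1 + inc D Lc.S₁ d) * (1 + inc D Lc.S₁ g1) ^ p) := by
      rw [hC, hc0d, hE, map_mul, map_pow, map_mul, map_pow, map_add, map_add, map_one]
    rw [hy2, h1, hG, mul_pow, mul_pow]
    ring
  have hvd : B.valuation (inc D Lc.S₁ d) < 1 := a0_v_lt hO hd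
  have hvd1 : B.valuation (1 + inc D Lc.S₁ d) = 1 := Valuation.map_one_add_of_lt _ hvd
  have hvG : B.valuation G = 1 := by
    rw [hG, map_mul, map_mul, a0_v_eq hO hb, hvg', one_mul, one_mul]
    exact Valuation.map_one_add_of_lt _ (a0_v_lt hO hg1)
  refine ⟨d, hd, hcase, G - 1, ?_, ?_⟩
  · have hGB : G - 1 ∈ B := by
      have : G ∈ B := by rw [← B.valuation_le_one_iff]; exact hvG.le
      exact sub_mem this (one_mem B)
    obtain ⟨r0, hr0⟩ := exists_add_pow_prime_eq hp (⟨G - 1, hGB⟩ : B) 1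
    obtain ⟨r, hr⟩ : ∃ r : B, ((⟨G - 1, hGB⟩ : B) + 1) ^ p = (⟨G - 1, hGB⟩ : B) ^ p + 1 + (p : B) * r :=
      ⟨(⟨G - 1, hGB⟩ : B) * r0, by rw [hr0]; ring⟩
    have hr' : G ^ p = (G - 1) ^ p + 1 + (p : NN D Lc.S₁) * (r : NN D Lc.S₁) := by
      have h1 := congrArg (Subtype.val) hr
      push_cast at h1
      rw [sub_add_cancel] at h1
      exact h1
    have h1 : G ^ p - 1 = (y - inc D Lc.S₁ d) / (1 + inc D Lc.S₁ d) := by
      have h2 : (1 + inc D Lc.S₁ d) ≠ 0 := by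
        intro h
        rw [h, map_zero] at hvd1
        exact zero_ne_one hvd1
      rw [eq_div_iff h2]
      linear_combination (-1 : NN D Lc.S₁) * hfin
    have h2 : B.valuation (G ^ p - 1) < 1 := by
      rw [h1, map_div₀, hvd1, div_one]
      exact Valuation.map_sub_lt _ hy hvd
    have h3 : B.valuation ((p : NN D Lc.S₁) * (r : NN D Lc.S₁)) < 1 := by
      have h4 : B.valuation (p : NN D Lc.S₁) < 1 := by
        have e : (p : NN D Lc.S₁) = inc D Lc.S₁ (p : FF Lc.S₁) := (map_natCast (inc D Lc.S₁) p).symm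
        rw [e]
        refine a0_v_lt hO ?_
        push_cast
        exact a0_nm_p Lc
      have h5 : B.valuation (r : NN D Lc.S₁) ≤ 1 := (B.valuation_le_one_iff _).2 r.2
      rw [map_mul]
      calc B.valuation (p : NN D Lc.S₁) * B.valuation (r : NN D Lc.S₁)
          ≤ B.valuation (p : NN D Lc.S₁) * 1 := by gcongr
        _ < 1 := by rw [mul_one]; exact h4
    have h6 : (G - 1) ^ p = (G ^ p - 1) - (p : NN D Lc.S₁) * (r : NN D Lc.S₁) := by rw [hr']; ring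
    have h7 : B.valuation ((G - 1) ^ p) < 1 := by
      rw [h6]
      exact Valuation.map_sub_lt _ h2 h3
    rw [map_pow] at h7
    by_contra hge
    rw [not_lt] at hge
    exact absurd h7 (not_lt.2 (one_le_pow₀ hge))
  · rw [hfin]
    congr 2
    ring

end

theorem st_A0 (hK : ST_KUM) (hR : ST_RESK) (hA : ST_ADJ) : ST_A0 :=
  fun _ _ _ _ _ _ _ D _ _ Lc B hO hN y hy => a0_main hK hR hA D Lc B hO hN y hy

end Pool.Agent.Helper14.BSC
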